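import Mathlib
import Pool.Agent.J6H73.RSA.Fin

/-!
# MP_669328_pr, Q1: the asymptotic variance of the jamming count of `r`-mers

`Var(C_n) / n` converges for every `r ≥ 1`, and the limit is given by an explicit integral formula.
-/

set_option autoImplicit false

open Filter Topology MeasureTheory ProbabilityTheory

open Pool.Agent.J6H73.RSA (jammed)

namespace Pool.Agent.Results.MP_669328_pr.VarianceFormula

/-- `weight r x t = exp (-2 ∑_{k=1}^{r-1} (x^k - t^k) / k)`. -/
noncomputable def weight (r : ℕ) (x t : ℝ) : ℝ :=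
  Real.exp (-2 * ∑ k ∈ Finset.Icc 1 (r - 1), (x ^ k - t ^ k) / k)

/-- The limiting number of `r`-mers per site, `(1 - μ(r)) / r` in the notation of the problem:
`density r = ∫_0^1 exp (-2 ∑_{k=1}^{r-1} (1 - x^k) / k) dx`. -/
noncomputable def density (r : ℕ) : ℝ := ∫ x in (0 : ℝ)..1, weight r 1 x

/-- The auxiliary function
`N(x) = x^(r-1) ∫_0^x weight r x t dt - (density r) x + (1 - r (density r)) (1 - x)`. -/
noncomputable def N (r : ℕ) (x : ℝ) : ℝ :=
  x ^ (r - 1) * (∫ t in (0 : ℝ)..x, weight r x t) - density r * x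
    + (1 - r * density r) * (1 - x)

/-- The asymptotic variance per site:
`v(r) = 2 ∫_0^1 weight r 1 x ((1 - x) ∑_{i<r} (1 - (r + i) (density r))² x^i + N(x)² / (1 - x)²) dx`. -/
noncomputable def v (r : ℕ) : ℝ :=
  2 * ∫ x in (0 : ℝ)..1, weight r 1 x *
    ((1 - x) * (∑ i ∈ Finset.range r, (1 - (r + i) * density r) ^ 2 * x ^ i)
      + N r x ^ 2 / (1 - x) ^ 2)

private lemma weight_eq (r : ℕ) (x t : ℝ) : weight r x t =
    Real.exp (-(2 * Pool.Agent.J6H73.RSA.SS r x)) * Real.exp (2 * Pool.Agent.J6H73.RSA.SS r t) := by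
  unfold weight Pool.Agent.J6H73.RSA.SS
  rw [← Real.exp_add]
  congr 1
  simp only [sub_div, Finset.sum_sub_distrib]
  ring

private lemma density_eq (r : ℕ) : density r = Pool.Agent.J6H73.RSA.aa r := by
  unfold density Pool.Agent.J6H73.RSA.aa
  simp only [weight_eq]
  rw [intervalIntegral.integral_const_mul]

private lemma N_eq (r : ℕ) (x : ℝ) : N r x = Pool.Agent.J6H73.RSA.NN r x := by
  unfold N Pool.Agent.J6H73.RSA.NN
  simp only [weight_eq, density_eq]
  rw [intervalIntegral.integral_const_mul]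

private lemma v_eq (r : ℕ) : v r = Pool.Agent.J6H73.RSA.vlim r := by
  unfold v Pool.Agent.J6H73.RSA.vlim
  rw [← intervalIntegral.integral_const_mul, ← intervalIntegral.integral_const_mul]
  congr 1
  funext x
  rw [weight_eq, N_eq, density_eq]
  have h : ∀ i : ℕ, (1 - ((r : ℝ) + i) * Pool.Agent.J6H73.RSA.aa r) ^ 2 * x ^ i =
      (1 - Pool.Agent.J6H73.RSA.aa r * (i + r)) ^ 2 * x ^ i := by
    intro i
    ring
  simp only [h]
  ring

/-- **The asymptotic variance of the jamming count.** For every `r ≥ 1` (the problem asks for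
`r ≥ 3`), `Var(C_n) / n → v(r)`. -/
theorem result (r : ℕ) (hr : 1 ≤ r) :
    Tendsto (fun n : ℕ => Var[fun c : ℕ => (c : ℝ); (jammed r n).toMeasure] / n) atTop
      (𝓝 (v r)) := by
  rw [v_eq]
  exact Pool.Agent.J6H73.RSA.variance_limit hr

end Pool.Agent.Results.MP_669328_pr.VarianceFormula
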